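import Mathlib

/-!
# MP_95a664: there need not be a Tukey-minimal poset for cohesiveness

For all regular cardinals `κ < μ` there is a proper ideal on `μ`, containing the bounded subsets
of `μ` and closed under unions of fewer than `κ` members, such that no poset `P` has the property
that the directed sets `Q` with `P ≤_T Q` are exactly the `I`-cohesive ones.
-/

universe u v w

open Cardinal Set

namespace Pool.Agent.Results.MP_95a664_lc.NoMinimalPoset

/-- `B` is cofinal in `Q`: every `q` lies below some `b ∈ B`. -/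
def CofinalIn {Q : Type u} [Preorder Q] (B : Set Q) : Prop := ∀ q, ∃ b ∈ B, q ≤ b

/-- `P ≤_T Q`: some map `f : Q → P` sends every cofinal subset of `Q` onto a cofinal subset
of `P`. -/
def TukeyLE (P : Type v) [Preorder P] (Q : Type u) [Preorder Q] : Prop :=
  ∃ f : Q → P, ∀ B : Set Q, CofinalIn B → CofinalIn (f '' B)

/-- `I` is an ideal of sets whose space (union) is `X`. -/
structure IsIdealOn {X : Type w} (I : Set (Set X)) : Prop where
  empty_mem : ∅ ∈ I
  subset_mem : ∀ A ∈ I, ∀ B, B ⊆ A → B ∈ I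
  union_mem : ∀ A ∈ I, ∀ B ∈ I, A ∪ B ∈ I
  space_eq : ⋃₀ I = Set.univ

/-- `Q` is `I`-cohesive: there is a family `(q i)`, `i` in the space of `I`, such that for every
`S` which is not in `I` the set `{q i : i ∈ S}` has no upper bound in `Q`. -/
def Cohesive {X : Type w} (I : Set (Set X)) (Q : Type u) [Preorder Q] : Prop :=
  ∃ q : X → Q, ∀ S : Set X, S ∉ I → ¬ ∃ b, ∀ i ∈ S, q i ≤ b

/-- In an infinite regular well-order every small set is strictly bounded. -/
theorem small_bdd {κ : Cardinal.{u}} (hκ : κ.IsRegular) (S : Set κ.ord.ToType)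
    (hS : #S < κ) : ∃ b, ∀ x ∈ S, x < b := by
  by_contra hcon
  push Not at hcon
  have h : IsCofinal S := fun b => hcon b
  have h1 := Order.cof_le h
  rw [Ordinal.cof_toType, hκ.cof_ord] at h1
  exact absurd hS (not_lt.mpr h1)

theorem exists_strict {κ : Cardinal.{u}} (hκ : κ.IsRegular) (x : κ.ord.ToType) :
    ∃ b, x < b := by
  obtain ⟨b, hb⟩ := small_bdd hκ {x} (by
    rw [mk_singleton]
    exact lt_of_lt_of_le one_lt_aleph0 hκ.aleph0_le)
  exact ⟨b, hb x rfl⟩

theorem nonempty_of_regular {κ : Cardinal.{u}} (hκ : κ.IsRegular) : Nonempty κ.ord.ToType := by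
  rw [← Cardinal.mk_ne_zero_iff, Cardinal.mk_ord_toType]
  exact hκ.pos.ne'

theorem mk_initial_lt {κ : Cardinal.{u}} (b : κ.ord.ToType) : #(Iio b) < κ := by
  exact Cardinal.mk_Iio_toType_ord_lt b

/-- If `P ≤_T κ` for a regular `κ`, the witness eventually dominates each `p ∈ P`. -/
theorem eventually_above {κ : Cardinal.{u}} {P : Type v} [Preorder P]
    (f : κ.ord.ToType → P)
    (hf : ∀ B : Set κ.ord.ToType, CofinalIn B → CofinalIn (f '' B)) (p : P) :
    ∃ a, ∀ x, a ≤ x → p ≤ f x := by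
  by_contra hcon
  push Not at hcon
  obtain ⟨_, ⟨x, hx, rfl⟩, hpx⟩ := hf {x | ¬ p ≤ f x} (fun a => by
    obtain ⟨x, hax, hx⟩ := hcon a
    exact ⟨x, hx, hax⟩) p
  exact hx hpx

/-- A common Tukey lower bound of regular `κ < μ` has a greatest element. -/
theorem exists_top {κ μ : Cardinal.{u}} (hμ : μ.IsRegular) (hlt : κ < μ)
    {P : Type v} [Preorder P] (h1 : TukeyLE P κ.ord.ToType) (h2 : TukeyLE P μ.ord.ToType) :
    ∃ m : P, ∀ p, p ≤ m := by
  obtain ⟨f, hf⟩ := h1
  obtain ⟨g, hg⟩ := h2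
  choose a ha using fun k => eventually_above g hg (f k)
  obtain ⟨b, hb⟩ := small_bdd hμ (range a) (lt_of_le_of_lt mk_range_le (by
    rw [mk_ord_toType]; exact hlt))
  refine ⟨g b, fun p => ?_⟩
  obtain ⟨k, hk⟩ := eventually_above f hf p
  exact (hk k le_rfl).trans (ha k b (hb _ ⟨k, rfl⟩).le)

/-- The ideal: sets whose image under `e` is covered by a horizontal and a vertical strip. -/
def strips {X K L : Type u} [LT K] [LT L] (e : X → K × L) : Set (Set X) :=
  {S | ∃ k l, ∀ x ∈ S, (e x).1 < k ∨ (e x).2 < l}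

/-- **Main theorem.** For all regular cardinals `κ < μ` (for instance `ℵ₀ < ℵ₁`) there is an ideal
`I` on `μ` which is proper, contains all bounded subsets of `μ`, is closed under unions of fewer
than `κ` members, and is such that no poset (even no preordered set) `P`, in any universe, has the
property that for every directed set `Q`: `P ≤_T Q` iff `Q` is `I`-cohesive. -/
theorem result (κ μ : Cardinal.{u}) (hκ : κ.IsRegular) (hμ : μ.IsRegular) (hlt : κ < μ) :
    ∃ I : Set (Set μ.ord.ToType), IsIdealOn I ∧ Set.univ ∉ I ∧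
      (∀ A : Set μ.ord.ToType, (∃ b, ∀ x ∈ A, x < b) → A ∈ I) ∧
      (∀ F : Set (Set μ.ord.ToType), F ⊆ I → #F < κ → ⋃₀ F ∈ I) ∧
      ∀ (P : Type v) [Preorder P],
        ¬ ∀ (Q : Type u) [PartialOrder Q] [Nonempty Q] [IsDirected Q (· ≤ ·)],
          TukeyLE P Q ↔ Cohesive I Q := by
  classical
  have hcard : #μ.ord.ToType = #(κ.ord.ToType × μ.ord.ToType) := by
    rw [mk_prod, lift_id, lift_id, mk_ord_toType, mk_ord_toType,
      mul_eq_right hμ.aleph0_le hlt.le hκ.pos.ne']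
  obtain ⟨e⟩ := Cardinal.eq.mp hcard
  obtain ⟨k0⟩ := nonempty_of_regular hκ
  obtain ⟨l0⟩ := nonempty_of_regular hμ
  have : Nonempty κ.ord.ToType := ⟨k0⟩
  have : Nonempty μ.ord.ToType := ⟨l0⟩
  have hbdd : ∀ A : Set μ.ord.ToType, (∃ b, ∀ x ∈ A, x < b) → A ∈ strips e := by
    rintro A ⟨b, hb⟩
    have hA : #A < μ := lt_of_le_of_lt (mk_le_mk_of_subset (fun x hx => hb x hx))
      (mk_initial_lt b)
    obtain ⟨l, hl⟩ := small_bdd hμ ((fun x => (e x).2) '' A) (lt_of_le_of_lt mk_image_le hA)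
    exact ⟨k0, l, fun x hx => Or.inr (hl _ ⟨x, hx, rfl⟩)⟩
  have hcomplete : ∀ F : Set (Set μ.ord.ToType), F ⊆ strips e → #F < κ →
      ⋃₀ F ∈ strips e := by
    intro F hF hFκ
    choose k l hkl using fun A : F => hF A.2
    obtain ⟨k', hk'⟩ := small_bdd hκ (range k) (lt_of_le_of_lt mk_range_le hFκ)
    obtain ⟨l', hl'⟩ := small_bdd hμ (range l) (lt_of_le_of_lt mk_range_le (hFκ.trans hlt))
    refine ⟨k', l', ?_⟩
    rintro x ⟨A, hA, hxA⟩
    rcases hkl ⟨A, hA⟩ x hxA with h | h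
    · exact Or.inl (h.trans (hk' _ ⟨_, rfl⟩))
    · exact Or.inr (h.trans (hl' _ ⟨_, rfl⟩))
  have hproper : Set.univ ∉ strips e := by
    rintro ⟨k, l, h⟩
    have := h (e.symm (k, l)) (mem_univ _)
    simp at this
  refine ⟨strips e, ?_, hproper, hbdd, hcomplete, ?_⟩
  · refine ⟨?_, ?_, ?_, ?_⟩
    · exact ⟨k0, l0, fun x hx => absurd hx (notMem_empty x)⟩
    · rintro A ⟨k, l, h⟩ B hBA
      exact ⟨k, l, fun x hx => h x (hBA hx)⟩
    · rintro A ⟨k, l, h⟩ B ⟨k', l', h'⟩
      refine ⟨max k k', max l l', ?_⟩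
      rintro x (hx | hx)
      · rcases h x hx with h1 | h1
        · exact Or.inl (lt_of_lt_of_le h1 (le_max_left _ _))
        · exact Or.inr (lt_of_lt_of_le h1 (le_max_left _ _))
      · rcases h' x hx with h1 | h1
        · exact Or.inl (lt_of_lt_of_le h1 (le_max_right _ _))
        · exact Or.inr (lt_of_lt_of_le h1 (le_max_right _ _))
    · refine eq_univ_of_forall fun x => ?_
      obtain ⟨b, hb⟩ := exists_strict hμ x
      exact ⟨{x}, hbdd _ ⟨b, fun y hy => by rw [mem_singleton_iff.mp hy]; exact hb⟩,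
        mem_singleton x⟩
  · intro P _ hP
    have hK : TukeyLE P κ.ord.ToType := by
      refine (hP _).mpr ⟨fun x => (e x).1, fun S hS => ?_⟩
      rintro ⟨b, hb⟩
      obtain ⟨b', hb'⟩ := exists_strict hκ b
      exact hS ⟨b', l0, fun x hx => Or.inl (lt_of_le_of_lt (hb x hx) hb')⟩
    have hL : TukeyLE P μ.ord.ToType := by
      refine (hP _).mpr ⟨fun x => (e x).2, fun S hS => ?_⟩
      rintro ⟨b, hb⟩
      obtain ⟨b', hb'⟩ := exists_strict hμ b
      exact hS ⟨k0, b', fun x hx => Or.inr (lt_of_le_of_lt (hb x hx) hb')⟩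
    obtain ⟨m, hm⟩ := exists_top hμ hlt hK hL
    have hone : TukeyLE P PUnit.{u + 1} := by
      refine ⟨fun _ => m, fun B hB p => ?_⟩
      obtain ⟨b, hb, _⟩ := hB PUnit.unit
      exact ⟨m, ⟨b, hb, rfl⟩, hm p⟩
    obtain ⟨q, hq⟩ := (hP _).mp hone
    exact hq Set.univ hproper ⟨PUnit.unit, fun i _ => le_of_eq (Subsingleton.elim _ _)⟩

end Pool.Agent.Results.MP_95a664_lc.NoMinimalPoset
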